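import Pool.Agent.H.MP_ac3185_nt.O42.Comb

/-! Degrees of the fields generated by square roots. -/

set_option autoImplicit false

open NumberField

namespace Pool.Agent.H.MP_ac3185_nt.OE

universe u

variable {K : Type u} [Field K] [CharZero K]

/-- The field generated by the square roots of `m` elements has degree at most `2 ^ m`. -/
theorem sqrtExt_finrank_le (S : Finset K) :
    Module.finrank K (sqrtExt (S : Set K)) ≤ 2 ^ S.card := by
  classical
  have hfd := sqrtExt_finite (S : Set K) S.finite_toSet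
  obtain ⟨hgal, -⟩ := tow_isGalois (S : Set K) (sqrtExt (S : Set K)) le_rfl
  have hsurj : Function.Surjective (AlgEquiv.restrictNormalHom (F := K) (K₁ := AlgebraicClosure K)
      (sqrtExt (S : Set K))) := AlgEquiv.restrictNormalHom_surjective (AlgebraicClosure K)
  choose ε hε using fun b : S => epsK (sqrtExt (S : Set K)) (b : K) (rtK K (b : K))
    (mem_sqrtExt (Finset.mem_coe.2 b.2) (rtK_sq K _)) (rtK_sq K _)
  have hinj : Function.Injective (fun (g : sqrtExt (S : Set K) ≃ₐ[K] sqrtExt (S : Set K)) (b : S) =>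
      ε b g) := by
    intro g g' h
    obtain ⟨σ, rfl⟩ := hsurj g
    obtain ⟨σ', rfl⟩ := hsurj g'
    have h1 : ∀ q ∈ (S : Set K), chiK q σ = chiK q σ' := by
      intro q hq
      have h2 := congrFun h ⟨q, Finset.mem_coe.1 hq⟩
      simp only [hε] at h2
      exact h2
    apply AlgEquiv.ext
    intro x
    apply Subtype.ext
    have hcomm : ∀ τ : AlgebraicClosure K ≃ₐ[K] AlgebraicClosure K,
        ((AlgEquiv.restrictNormalHom (sqrtExt (S : Set K)) τ x : sqrtExt (S : Set K)) :
          AlgebraicClosure K) = τ (x : AlgebraicClosure K) :=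
      fun τ => AlgEquiv.restrictNormal_commutes τ (sqrtExt (S : Set K)) x
    rw [hcomm, hcomm]
    exact Tow_agree (S : Set K) σ σ' h1 x x.2
  have h3 := Nat.card_le_card_of_injective _ hinj
  rw [IsGalois.card_aut_eq_finrank] at h3
  refine h3.trans (le_of_eq ?_)
  rw [Nat.card_fun, Nat.card_eq_fintype_card, Nat.card_eq_fintype_card, Fintype.card_coe]
  congr 1

/-- A field which contains the square roots of infinitely many independent elements has infinite
degree. -/
theorem infinite_of_indep (D : ℕ → K) (hD0 : ∀ j, D j ≠ 0)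
    (hD : ∀ T : Finset ℕ, T.Nonempty → ∀ y : K, y ^ 2 ≠ ∏ j ∈ T, D j) (n : ℕ) (X : Set K)
    (hX : ∀ j, n ≤ j → D j ∈ X) : ¬ FiniteDimensional K (sqrtExt X) := by
  intro hfd
  obtain ⟨hgal, -⟩ := tow_isGalois X (sqrtExt X) le_rfl
  choose ε hε using fun j : ℕ => epsK (sqrtExt X) (D (n + j)) (rtK K (D (n + j)))
    (mem_sqrtExt (hX _ (Nat.le_add_right n j)) (rtK_sq K _)) (rtK_sq K _)
  have hfin : Finite ((sqrtExt X ≃ₐ[K] sqrtExt X) →* ℤˣ) := DFunLike.finite _
  refine not_injective_infinite_finite ε fun i j hij => ?_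
  by_contra hne
  have h1 : chiK (D (n + i)) = chiK (D (n + j)) := by
    apply MonoidHom.ext
    intro σ
    rw [← hε i σ, hij, hε j σ]
  have h2 : chiK (D (n + i) * D (n + j)) = 1 := by
    rw [chiK_mul (hD0 _) (hD0 _), h1, Chi_self_mul]
  obtain ⟨y, hy⟩ := isSquare_of_chiK h2
  refine hD {n + i, n + j} ⟨n + i, Finset.mem_insert_self _ _⟩ y ?_
  rw [hy, Finset.prod_pair (by omega)]

end Pool.Agent.H.MP_ac3185_nt.OE
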