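import Pool.Agent.H.MP_ac3185_nt.U.Defs

/-! Definitions for the theorem on all quadratic twists but one. -/

set_option autoImplicit false

open CategoryTheory AlgebraicGeometry NumberField IsDedekindDomain
open scoped MonObj

namespace Pool.Agent.H.MP_ac3185_nt.OE

universe u

/-- `B` is the quadratic twist of `A` by the element `a ≠ 0` of `K`, on the level of points: there is an
isomorphism of groups `φ : A(Kbar) → B(Kbar)` such that `φ (σ x) = σ (φ x)` for the elements `σ` of
`Gal(Kbar/K)` which fix the square roots of `a`, and `φ (σ x) = - σ (φ x)` for the others. -/
def IsTwistBy {K : Type u} [Field K] (A B : Over (Spec (.of K))) [GrpObj A] [IsAbVar A] [GrpObj B]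
    [IsAbVar B] (a : K) : Prop :=
  ∃ φ : Pts A (AlgebraicClosure K) ≃+ Pts B (AlgebraicClosure K),
    ∀ (σ : AlgebraicClosure K ≃ₐ[K] AlgebraicClosure K) (s : AlgebraicClosure K),
      s ^ 2 = algebraMap K (AlgebraicClosure K) a → ∀ x : Pts A (AlgebraicClosure K),
        (σ s = s → φ (galHom A σ x) = galHom B σ (φ x)) ∧
        (σ s ≠ s → φ (galHom A σ x) = -galHom B σ (φ x))

/-- The field generated over `K` by the square roots of the elements of `X`. -/
noncomputable def sqrtExt {K : Type u} [Field K] (X : Set K) :
    IntermediateField K (AlgebraicClosure K) :=
  IntermediateField.adjoin K {x | ∃ a ∈ X, x ^ 2 = algebraMap K (AlgebraicClosure K) a}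

/-- Properties of a family of signs `W L w`, for the finite places `w` of the finite extensions `L` of
the number field `K`: almost all `W L w` with given `L` are `1`, and the signs at the places of a Galois
extension `L` above one place of `K` are equal. The local root numbers `W L w = w(B / L_w)` of an
abelian variety `B` over `K` have these properties. -/
structure IsSignFamily {K : Type u} [Field K] [NumberField K] (W : LocalSigns K) : Prop where
  /-- root numbers of abelian varieties are signs -/
  sign : ∀ (L : IntermediateField K (AlgebraicClosure K)) [FiniteDimensional K L]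
    (w : HeightOneSpectrum (𝓞 L)), W L w = 1 ∨ W L w = -1
  /-- almost all root numbers are equal to `1` -/
  almost : ∀ (L : IntermediateField K (AlgebraicClosure K)) [FiniteDimensional K L],
    {w : HeightOneSpectrum (𝓞 L) | W L w ≠ 1}.Finite
  /-- transport of structure: in a Galois extension `L` of `K` the root numbers at the places above
  one place `v` of `K` are equal -/
  transport : ∀ (L : IntermediateField K (AlgebraicClosure K)) [FiniteDimensional K L]
    [IsGalois K L] (v : HeightOneSpectrum (𝓞 K)) (w w' : HeightOneSpectrum (𝓞 L)),
    Divides L w v → Divides L w' v → W L w = W L w'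

/-- The global root number over `F` of the quadratic twist of `A` by `a` is `1`, and its rank over `F`
is even. (The rank is the cardinal number `Module.rank`; a cardinal `c` is even if `c = b + b` for some
`b`, so infinite cardinals, which do not occur by the theorem of Mordell and Weil, are even.) -/
def BothEvenK {K : Type u} [Field K] [NumberField K] (A : Over (Spec (.of K))) [GrpObj A]
    [IsAbVar A] (a : K) (F : IntermediateField K (AlgebraicClosure K)) : Prop :=
  ∀ (B : Over (Spec (.of K))) [GrpObj B] [IsAbVar B], IsTwistBy A B a →
    (∀ W : LocalSigns K, IsSignFamily W → ∀ g : ℕ, signOver W g F = 1) ∧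
      Even (Module.rank ℤ (Pts B F))

end Pool.Agent.H.MP_ac3185_nt.OE
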