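import Pool.Agent.H.MP_ac3185_nt.O42.ChiK
import Pool.Agent.H.MP_ac3185_nt.O42.Defs

/-! Galois theory of the fields generated by square roots of elements of `K`. -/

set_option autoImplicit false

open NumberField

namespace Pool.Agent.H.MP_ac3185_nt.OE

universe u

variable {K : Type u} [Field K] [CharZero K]

omit [CharZero K] in
theorem sqrtExt_mono {X Y : Set K} (h : X ⊆ Y) : sqrtExt X ≤ sqrtExt Y := by
  unfold sqrtExt
  apply IntermediateField.adjoin.mono
  rintro x ⟨a, ha, hx⟩
  exact ⟨a, h ha, hx⟩

omit [CharZero K] in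
theorem mem_sqrtExt {X : Set K} {a : K} (ha : a ∈ X) {x : AlgebraicClosure K}
    (hx : x ^ 2 = algebraMap K (AlgebraicClosure K) a) : x ∈ sqrtExt X :=
  IntermediateField.subset_adjoin K _ ⟨a, ha, hx⟩

omit [CharZero K] in
theorem Tow_agree0 (X : Set K) (σ τ : AlgebraicClosure K ≃ₐ[K] AlgebraicClosure K)
    (h : ∀ q ∈ X, ∀ s : AlgebraicClosure K, s ^ 2 = algebraMap K (AlgebraicClosure K) q →
      σ s = τ s) (x : AlgebraicClosure K) (hx : x ∈ sqrtExt X) : σ x = τ x := by
  unfold sqrtExt at hx
  induction hx using IntermediateField.adjoin_induction with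
  | mem y hy =>
    obtain ⟨q, hq, hy⟩ := hy
    exact h q hq y hy
  | algebraMap y => rw [AlgEquiv.commutes, AlgEquiv.commutes]
  | add y z _ _ h1 h2 => rw [map_add, map_add, h1, h2]
  | inv y _ h1 => rw [map_inv₀, map_inv₀, h1]
  | mul y z _ _ h1 h2 => rw [map_mul, map_mul, h1, h2]

/-- Automorphisms on which the characters of the elements of `X` agree, agree on `sqrtExt X`. -/
theorem Tow_agree (X : Set K) (σ τ : AlgebraicClosure K ≃ₐ[K] AlgebraicClosure K)
    (h : ∀ q ∈ X, chiK q σ = chiK q τ) (x : AlgebraicClosure K) (hx : x ∈ sqrtExt X) :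
    σ x = τ x := by
  refine Tow_agree0 X σ τ (fun q hq s hs => ?_) x hx
  rw [chiK_smul q σ s hs, chiK_smul q τ s hs, h q hq]

/-- Two elements of the Galois group commute on `sqrtExt X`. -/
theorem Tow_comm (X : Set K) (σ τ : AlgebraicClosure K ≃ₐ[K] AlgebraicClosure K)
    (x : AlgebraicClosure K) (hx : x ∈ sqrtExt X) : σ (τ x) = τ (σ x) := by
  have h := Tow_agree X (σ * τ) (τ * σ)
    (fun q _ => by rw [map_mul, map_mul, mul_comm]) x hx
  rwa [AlgEquiv.mul_apply, AlgEquiv.mul_apply] at h

/-- Squares are trivial on `sqrtExt X`. -/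
theorem Tow_sq (X : Set K) (σ : AlgebraicClosure K ≃ₐ[K] AlgebraicClosure K)
    (x : AlgebraicClosure K) (hx : x ∈ sqrtExt X) : σ (σ x) = x := by
  have h := Tow_agree X (σ * σ) 1
    (fun q _ => by rw [map_mul, map_one, Int.units_mul_self]) x hx
  rwa [AlgEquiv.mul_apply, AlgEquiv.one_apply] at h

/-- A finite extension of `K` in a field generated by square roots of elements of `K` is Galois, with
a Galois group of exponent `2`. -/
theorem tow_isGalois (X : Set K) (L : IntermediateField K (AlgebraicClosure K))
    [FiniteDimensional K L] (hL : L ≤ sqrtExt X) :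
    IsGalois K L ∧ ∀ g : L ≃ₐ[K] L, g * g = 1 := by
  have hmem : ∀ (σ : AlgebraicClosure K ≃ₐ[K] AlgebraicClosure K) (x : AlgebraicClosure K),
      x ∈ L → σ x ∈ L := by
    intro σ x hx
    rw [← InfiniteGalois.fixedField_fixingSubgroup L, IntermediateField.mem_fixedField_iff]
    intro τ hτ
    have h1 : τ x = x := (IntermediateField.mem_fixingSubgroup_iff L τ).1 hτ x hx
    rw [Tow_comm X τ σ x (hL hx), h1]
  have hnormal : Normal K L := by
    rw [IntermediateField.normal_iff_forall_map_le']
    rintro σ y ⟨x, hx, rfl⟩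
    exact hmem σ x hx
  have hgal : IsGalois K L := ⟨⟩
  refine ⟨hgal, ?_⟩
  intro g
  ext y
  have h1 : ∀ z : L, ((g z : L) : AlgebraicClosure K) =
      g.liftNormal (AlgebraicClosure K) (z : AlgebraicClosure K) :=
    fun z => (g.liftNormal_commutes (AlgebraicClosure K) z).symm
  rw [AlgEquiv.mul_apply, AlgEquiv.one_apply, h1, h1]
  exact Tow_sq X _ _ (hL y.2)

theorem tow_twoNilpotent (X : Set K) (L : IntermediateField K (AlgebraicClosure K))
    [FiniteDimensional K L] (hL : L ≤ sqrtExt X) : TwoNilpotent L := by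
  have h2 : IsPGroup 2 (L ≃ₐ[K] L) := fun g => ⟨1, by
    rw [pow_one, pow_two]
    exact (tow_isGalois X L hL).2 g⟩
  refine ⟨⊥, inferInstance, ?_, h2.to_quotient ⊥⟩
  rw [Subgroup.card_bot]
  exact odd_one

/-- The field generated by a square root of a number which is not a square. -/
theorem tow_finrank (a : K) (x : AlgebraicClosure K)
    (hx : x ^ 2 = algebraMap K (AlgebraicClosure K) a) (hK : ∀ y : K, y ^ 2 ≠ a) :
    Module.finrank K (IntermediateField.adjoin K {x}) = 2 := by
  have hirr : Irreducible (Polynomial.X ^ 2 - Polynomial.C a : Polynomial K) :=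
    X_pow_sub_C_irreducible_of_prime Nat.prime_two hK
  have hmon : (Polynomial.X ^ 2 - Polynomial.C a : Polynomial K).Monic :=
    Polynomial.monic_X_pow_sub_C a two_ne_zero
  have hroot : Polynomial.aeval x (Polynomial.X ^ 2 - Polynomial.C a : Polynomial K) = 0 := by
    simp [hx]
  have hmin := minpoly.eq_of_irreducible_of_monic hirr hroot hmon
  have hint : IsIntegral K x := ⟨_, hmon, by rwa [Polynomial.aeval_def] at hroot⟩
  rw [IntermediateField.adjoin.finrank hint, ← hmin, Polynomial.natDegree_X_pow_sub_C]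

/-- The fields `F` in `sqrtExt X` which contain a square root of a nonsquare. -/
theorem tow_above (X : Set K) (F : IntermediateField K (AlgebraicClosure K))
    [h : FiniteDimensional K F] (hF : F ≤ sqrtExt X) (a : K) (x : AlgebraicClosure K) (hxF : x ∈ F)
    (hx : x ^ 2 = algebraMap K (AlgebraicClosure K) a) (hK : ∀ y : K, y ^ 2 ≠ a) :
    AboveTower (sqrtExt X) F :=
  ⟨h, (tow_isGalois X F hF).1, tow_twoNilpotent X F hF,
    ⟨IntermediateField.adjoin K {x}, IntermediateField.adjoin_simple_le_iff.2 hxF,
      tow_finrank a x hx hK⟩, fun _ hQ _ => hQ.trans hF⟩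

/-- The quadratic characters of `Gal(F/K)`, if all quadratic extensions of `K` in `F` lie in
`sqrtExt X`. (As `char_tower`.) -/
theorem charK_tower (X : Set K) (hX : ∀ b ∈ X, b ≠ 0)
    (F : IntermediateField K (AlgebraicClosure K)) [FiniteDimensional K F] [IsGalois K F]
    (hF : ∀ Q : IntermediateField K (AlgebraicClosure K), Q ≤ F → Module.finrank K Q = 2 →
      Q ≤ sqrtExt X) (ε : (F ≃ₐ[K] F) →* ℤˣ) :
    ∃ t : Finset K, (∀ b ∈ t, b ∈ X) ∧
      ∀ σ : AlgebraicClosure K ≃ₐ[K] AlgebraicClosure K,
        ε (AlgEquiv.restrictNormalHom F σ) = chiK (∏ b ∈ t, b) σ := by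
  classical
  by_cases hε : ε = 1
  · refine ⟨∅, fun j hj => absurd hj (Finset.notMem_empty j), fun σ => ?_⟩
    rw [hε, Finset.prod_empty, chiK_one]
    rfl
  · obtain ⟨E, hE⟩ : ∃ E : IntermediateField K F, E = IntermediateField.fixedField ε.ker := ⟨_, rfl⟩
    have hfix : E.fixingSubgroup = ε.ker := by
      rw [hE, IntermediateField.fixingSubgroup_fixedField]
    have hQ2 : Module.finrank K (IntermediateField.lift E) = 2 := by
      rw [← (IntermediateField.liftAlgEquiv E).toLinearEquiv.finrank_eq,
        IntermediateField.finrank_eq_fixingSubgroup_index, hfix]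
      exact corg_index_ker ε hε
    have hQ := hF (IntermediateField.lift E) (IntermediateField.lift_le _) hQ2
    obtain ⟨α, hα⟩ := Field.exists_primitive_element K E
    have hαQ : (((α : E) : F) : AlgebraicClosure K) ∈ sqrtExt X :=
      hQ ((IntermediateField.mem_lift (α : F)).2 α.2)
    obtain ⟨T, hTS, hT⟩ := IntermediateField.exists_finset_of_mem_adjoin hαQ
    have hj : ∀ x : AlgebraicClosure K, ∃ j : K, x ∈ T → j ∈ X ∧
        x ^ 2 = algebraMap K (AlgebraicClosure K) j := by
      intro x
      by_cases hx : x ∈ T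
      · obtain ⟨j, h1, h2⟩ := hTS hx
        exact ⟨j, fun _ => ⟨h1, h2⟩⟩
      · exact ⟨0, fun h => absurd h hx⟩
    choose jf hjf using hj
    obtain ⟨t, htX, ht⟩ := char_prod_of_ker (T.image jf)
      (fun j : K => (chiK j : (AlgebraicClosure K ≃ₐ[K] AlgebraicClosure K) →* ℤˣ))
      (ε.comp (AlgEquiv.restrictNormalHom F)) (by
        intro σ hσ
        have hσT : ∀ x ∈ T, σ x = x := by
          intro x hx
          have h1 := hσ (jf x) (Finset.mem_image_of_mem jf hx)
          exact (chiK_eq_one_iff (jf x) σ x (hjf x hx).2).1 h1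
        have hσa : ∀ x ∈ IntermediateField.adjoin K (T : Set (AlgebraicClosure K)), σ x = x := by
          intro x hx
          induction hx using IntermediateField.adjoin_induction with
          | mem x hx => exact hσT x hx
          | algebraMap x => exact σ.commutes x
          | add x y _ _ h1 h2 => rw [map_add, h1, h2]
          | inv x _ h1 => rw [map_inv₀, h1]
          | mul x y _ _ h1 h2 => rw [map_mul, h1, h2]
        have hcomm : ∀ x : F, ((AlgEquiv.restrictNormalHom F σ x : F) : AlgebraicClosure K) =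
            σ (x : AlgebraicClosure K) := fun x =>
          AlgEquiv.restrictNormal_commutes σ F x
        have hα1 : AlgEquiv.restrictNormalHom F σ ((α : E) : F) = ((α : E) : F) := by
          apply Subtype.ext
          rw [hcomm]
          exact hσa _ hT
        have hall : ∀ y : E, AlgEquiv.restrictNormalHom F σ (y : F) = (y : F) := by
          intro y
          have hy : y ∈ IntermediateField.adjoin K ({α} : Set E) := by
            rw [hα]; exact IntermediateField.mem_top
          induction hy using IntermediateField.adjoin_induction with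
          | mem x hx =>
            rw [Set.mem_singleton_iff] at hx
            rw [hx]
            exact hα1
          | algebraMap x => exact (AlgEquiv.restrictNormalHom F σ).commutes x
          | add x y _ _ h1 h2 =>
            rw [IntermediateField.coe_add, map_add, h1, h2]
          | inv x _ h1 => rw [IntermediateField.coe_inv, map_inv₀, h1]
          | mul x y _ _ h1 h2 => rw [IntermediateField.coe_mul, map_mul, h1, h2]
        have hmem : AlgEquiv.restrictNormalHom F σ ∈ E.fixingSubgroup := by
          rw [IntermediateField.mem_fixingSubgroup_iff]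
          intro x hx
          exact hall ⟨x, hx⟩
        rw [hfix] at hmem
        exact hmem)
    have htm : ∀ j ∈ t, j ∈ X := by
      intro j hj
      obtain ⟨x, hx, rfl⟩ := Finset.mem_image.1 (htX hj)
      exact (hjf x hx).1
    refine ⟨t, htm, fun σ => ?_⟩
    rw [chiK_prod t (fun b => b) (fun i hi => hX i (htm i hi)), ← ht]
    rfl

/-- The character of a square root which lies in `F`. -/
theorem epsK (F : IntermediateField K (AlgebraicClosure K)) [Normal K F] (a : K)
    (x : AlgebraicClosure K) (hxF : x ∈ F) (hx : x ^ 2 = algebraMap K (AlgebraicClosure K) a) :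
    ∃ ε : (F ≃ₐ[K] F) →* ℤˣ, ∀ σ : AlgebraicClosure K ≃ₐ[K] AlgebraicClosure K,
      ε (AlgEquiv.restrictNormalHom F σ) = chiK a σ := by
  have hsurj : Function.Surjective (AlgEquiv.restrictNormalHom (F := K) (K₁ := AlgebraicClosure K)
      F) := AlgEquiv.restrictNormalHom_surjective (AlgebraicClosure K)
  have hker : (AlgEquiv.restrictNormalHom (F := K) (K₁ := AlgebraicClosure K)
      F).ker ≤ (chiK a).ker := by
    intro σ hσ
    rw [MonoidHom.mem_ker] at hσ ⊢
    rw [chiK_eq_one_iff _ σ x hx]
    have h1 := AlgEquiv.restrictNormal_commutes σ F ⟨x, hxF⟩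
    have h2 : σ.restrictNormal F = 1 := hσ
    rw [h2] at h1
    exact h1.symm
  refine ⟨MonoidHom.liftOfRightInverse _ _ (Function.rightInverse_surjInv hsurj)
    ⟨chiK a, hker⟩, fun σ => ?_⟩
  exact MonoidHom.liftOfRightInverse_comp_apply _ _ _ _ _

end Pool.Agent.H.MP_ac3185_nt.OE
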