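import Pool.Agent.H.MP_ac3185_nt.O42.Eps
import Pool.Agent.H.MP_ac3185_nt.O42.Tow
import Pool.Agent.H.MP_ac3185_nt.W.Twist

/-! The parity of the ranks of the quadratic twists over `F`. -/

set_option autoImplicit false

open CategoryTheory AlgebraicGeometry NumberField IsDedekindDomain
open scoped MonObj

namespace Pool.Agent.H.MP_ac3185_nt.OE

universe u

/-- The number of the characters with values `±1` is divisible by `4`, if there are two different
non-trivial ones. -/
theorem four_dvd_chars {G : Type*} [Group G] [Finite G] (ε₁ ε₂ : G →* ℤˣ) (h1 : ε₁ ≠ 1)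
    (h2 : ε₂ ≠ 1) (h12 : ε₁ ≠ ε₂) : 4 ∣ Nat.card (G →* ℤˣ) := by
  have hfin : Finite (G →* ℤˣ) := DFunLike.finite _
  have hp : IsPGroup 2 (G →* ℤˣ) := fun ε => ⟨1, by
    apply MonoidHom.ext
    intro g
    rw [pow_one, pow_two, MonoidHom.mul_apply, Int.units_mul_self, MonoidHom.one_apply]⟩
  obtain ⟨n, hn⟩ := IsPGroup.iff_card.1 hp
  have h3 : 3 ≤ Nat.card (G →* ℤˣ) := by
    have hinj : Function.Injective (![1, ε₁, ε₂] : Fin 3 → (G →* ℤˣ)) := by
      intro i j hij
      fin_cases i <;> fin_cases j <;> simp_all [eq_comm]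
    have := Nat.card_le_card_of_injective _ hinj
    rwa [Nat.card_eq_fintype_card, Fintype.card_fin] at this
  rw [hn] at h3 ⊢
  have h4 : 2 ≤ n := by
    by_contra h
    have h5 : n ≤ 1 := by omega
    have := Nat.pow_le_pow_right (n := 2) (by norm_num) h5
    omega
  exact pow_dvd_pow 2 h4

/-- The sum of a function `f` on a finite set of size divisible by `4`, with `f x + f (τ x) = δ` modulo
`2` for an involution `τ` without fixed points. -/
theorem even_sum_pair {X : Type*} [Fintype X] [DecidableEq X] (f : X → ℕ) (τ : X → X)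
    (hτ : ∀ x, τ (τ x) = x) (hne : ∀ x, τ x ≠ x) (δ : ℕ)
    (hf : ∀ x, f x + f (τ x) ≡ δ [MOD 2]) (h4 : 4 ∣ Fintype.card X) : Even (∑ x, f x) := by
  classical
  rcases Nat.even_or_odd δ with hδ | hδ
  · have hsum : ((∑ x, f x : ℕ) : ZMod 2) = 0 := by
      rw [Nat.cast_sum]
      refine Finset.sum_involution (fun x _ => τ x) ?_ ?_ ?_ ?_
      · intro x _
        have h1 := hf x
        have h2 : f x + f (τ x) ≡ 0 [MOD 2] :=
          h1.trans ((Nat.modEq_zero_iff_dvd).2 (even_iff_two_dvd.1 hδ))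
        have h3 := (ZMod.natCast_eq_natCast_iff _ _ 2).2 h2
        rw [Nat.cast_add, Nat.cast_zero] at h3
        exact h3
      · intro x _ _
        exact hne x
      · intro x _
        exact Finset.mem_univ _
      · intro x _
        exact hτ x
    rw [ZMod.natCast_eq_zero_iff] at hsum
    exact even_iff_two_dvd.2 hsum
  · rw [← Nat.not_odd_iff_even, Finset.odd_sum_iff_odd_card_odd, Nat.not_odd_iff_even]
    have hcard : (Finset.univ.filter fun x => Odd (f x)).card =
        (Finset.univ.filter fun x => ¬ Odd (f x)).card := by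
      refine Finset.card_bij' (fun x _ => τ x) (fun x _ => τ x) ?_ ?_ ?_ ?_
      · intro x hx
        rw [Finset.mem_filter] at hx ⊢
        refine ⟨Finset.mem_univ _, ?_⟩
        have h1 : (f x + f (τ x)) % 2 = δ % 2 := hf x
        rw [Nat.odd_iff] at hx hδ ⊢
        omega
      · intro x hx
        rw [Finset.mem_filter] at hx ⊢
        refine ⟨Finset.mem_univ _, ?_⟩
        have h1 : (f x + f (τ x)) % 2 = δ % 2 := hf x
        rw [Nat.odd_iff] at hx hδ ⊢
        omega
      · intro x _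
        exact hτ x
      · intro x _
        exact hτ x
    have h5 := Finset.card_filter_add_card_filter_not (s := (Finset.univ : Finset X))
      (fun x => Odd (f x))
    rw [← hcard, Finset.card_univ] at h5
    obtain ⟨k, hk⟩ := h4
    exact ⟨k, by omega⟩

variable {K : Type u} [Field K] [CharZero K]

/-- The ranks over `F` are even. -/
theorem rankK_even (A B : Over (Spec (.of K))) [GrpObj A] [IsAbVar A] [GrpObj B] [IsAbVar B]
    (a : K) (hAB : IsTwistBy A B a) (X : Set K) (hX : ∀ b ∈ X, b ≠ 0)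
    (F : IntermediateField K (AlgebraicClosure K)) (hF : AboveTower (sqrtExt X) F)
    (c : K) (x : AlgebraicClosure K) (hxF : x ∈ F)
    (hx : x ^ 2 = algebraMap K (AlgebraicClosure K) c) (hc : chiK c ≠ 1)
    (b : K) (y : AlgebraicClosure K) (hyF : y ∈ F)
    (hy : y ^ 2 = algebraMap K (AlgebraicClosure K) b) (hb : chiK b ≠ 1)
    (hbc : chiK c ≠ chiK b) (δ : ℕ)
    (hP : ∀ t : Finset K, (∀ b ∈ t, b ∈ X) →
      psiRank A (chiK (∏ b ∈ t, b) * chiK a) + psiRank A (chiK (∏ b ∈ t, b) * chiK c * chiK a) ≡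
        δ [MOD 2]) :
    Even (Module.rank ℤ (Pts B F)) := by
  classical
  obtain ⟨hfd0, hgal, hnil, -, hq⟩ := hF
  rcases lt_or_ge (Module.rank ℤ (Pts B F)) Cardinal.aleph0 with h1 | h1
  · obtain ⟨r, hr⟩ := Cardinal.lt_aleph0.1 h1
    rw [hr]
    apply gt_even_nat
    have hfinG : Finite (F ≃ₐ[K] F) := inferInstance
    obtain ⟨M, _, _, ρ, hM, hε⟩ := exists_repK A B _ hAB F
    have hMr : Module.rank ℚ M = (r : Cardinal) := hM.trans hr
    have hfd : FiniteDimensional ℚ M := Module.rank_lt_aleph0_iff.1 (by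
      rw [hMr]; exact Cardinal.natCast_lt_aleph0)
    have hMf : Module.finrank ℚ M = r := Module.finrank_eq_of_rank_eq hMr
    obtain ⟨N, hN, hodd, h2⟩ := hnil
    have hmod := finrank_two_nilpotent N hodd h2 ρ
    obtain ⟨ε₀, hε₀⟩ := epsK F c x hxF hx
    obtain ⟨ε₁, hε₁⟩ := epsK F b y hyF hy
    have hval : ∀ (ε : (F ≃ₐ[K] F) →* ℤˣ) (χ : (AlgebraicClosure K ≃ₐ[K] AlgebraicClosure K) →* ℤˣ),
        (∀ σ, ε (AlgEquiv.restrictNormalHom F σ) = χ σ) → ε = 1 → χ = 1 := by
      intro ε χ h3 h4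
      apply MonoidHom.ext
      intro σ
      rw [← h3 σ, h4]
      rfl
    have hne₀ : ε₀ ≠ 1 := fun h => hc (hval ε₀ _ hε₀ h)
    have hne₁ : ε₁ ≠ 1 := fun h => hb (hval ε₁ _ hε₁ h)
    have hne : ε₀ ≠ ε₁ := by
      intro h
      apply hbc
      apply MonoidHom.ext
      intro σ
      rw [← hε₀ σ, h, hε₁ σ]
    have h4 := four_dvd_chars ε₀ ε₁ hne₀ hne₁ hne
    have hfin : Finite ((F ≃ₐ[K] F) →* ℤˣ) := DFunLike.finite _
    have _ : Fintype ((F ≃ₐ[K] F) →* ℤˣ) := Fintype.ofFinite _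
    rw [Nat.card_eq_fintype_card] at h4
    rw [hMf, finsum_eq_sum_of_fintype] at hmod
    have hg : ∀ (ε : (F ≃ₐ[K] F) →* ℤˣ) (ψ : (AlgebraicClosure K ≃ₐ[K] AlgebraicClosure K) →* ℤˣ),
        (∀ σ, ε (AlgEquiv.restrictNormalHom F σ) * chiK a σ = ψ σ) →
        Module.finrank ℚ (epsPart ρ ε) = psiRank A ψ := by
      intro ε ψ h5
      have h6 := hε ε ψ h5
      unfold psiRank Module.finrank
      rw [h6]
    have hinv : ∀ ε : (F ≃ₐ[K] F) →* ℤˣ, ε * ε₀ * ε₀ = ε := by
      intro ε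
      rw [mul_assoc]
      have h9 : ε₀ * ε₀ = 1 := by
        apply MonoidHom.ext
        intro g
        rw [MonoidHom.mul_apply, Int.units_mul_self, MonoidHom.one_apply]
      rw [h9, mul_one]
    have hev := even_sum_pair (fun ε : (F ≃ₐ[K] F) →* ℤˣ => Module.finrank ℚ (epsPart ρ ε))
      (fun ε => ε * ε₀) hinv (fun ε h => hne₀ (mul_eq_left.1 h)) δ (fun ε => by
        obtain ⟨t, ht, ht2⟩ := charK_tower X hX F hq ε
        have h7 := hg ε (chiK (∏ b ∈ t, b) * chiK a) (fun σ => by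
          rw [ht2, MonoidHom.mul_apply])
        have h8 := hg (ε * ε₀) (chiK (∏ b ∈ t, b) * chiK c * chiK a) (fun σ => by
          rw [MonoidHom.mul_apply, ht2, hε₀, MonoidHom.mul_apply, MonoidHom.mul_apply])
        show Module.finrank ℚ (epsPart ρ ε) + Module.finrank ℚ (epsPart ρ (ε * ε₀)) ≡ δ [MOD 2]
        rw [h7, h8]
        exact hP t ht) h4
    rw [Nat.even_iff] at hev ⊢
    exact (show r % 2 = _ from hmod).trans hev
  · have h2 := gt_even_infinite _ h1 0
    rwa [Nat.cast_zero, add_zero] at h2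

end Pool.Agent.H.MP_ac3185_nt.OE
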