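import Pool.Agent.H.MP_ac3185_nt.O42.Deg
import Pool.Agent.H.MP_ac3185_nt.O42.Rank
import Pool.Agent.H.MP_ac3185_nt.helper16.K.Sign

/-! All quadratic twists but one: the theorem. -/

set_option autoImplicit false

open CategoryTheory AlgebraicGeometry NumberField IsDedekindDomain
open scoped MonObj

namespace Pool.Agent.H.MP_ac3185_nt.OE

universe u

/-- The products of the elements of a finite set of numbers `c`, `D j` with `j ≥ n`. -/
theorem prod_split {K : Type u} [Field K] (D : ℕ → K) (n : ℕ) (c : K) (t : Finset K)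
    (ht : ∀ b ∈ t, b ∈ insert c {z | ∃ j, n ≤ j ∧ z = D j}) :
    ∃ T : Finset ℕ, (∀ j ∈ T, n ≤ j) ∧
      (∏ b ∈ t, b = ∏ j ∈ T, D j ∨ ∏ b ∈ t, b = c * ∏ j ∈ T, D j) := by
  classical
  have hj : ∀ b : K, ∃ j : ℕ, b ∈ t.erase c → n ≤ j ∧ b = D j := by
    intro b
    by_cases hb : b ∈ t.erase c
    · rw [Finset.mem_erase] at hb
      obtain ⟨j, h1, h2⟩ := (ht b hb.2).resolve_left hb.1
      exact ⟨j, fun _ => ⟨h1, h2⟩⟩
    · exact ⟨0, fun h => absurd h hb⟩
  choose jf hjf using hj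
  have hprod : ∏ j ∈ (t.erase c).image jf, D j = ∏ b ∈ t.erase c, b := by
    rw [Finset.prod_image]
    · exact Finset.prod_congr rfl fun b hb => ((hjf b hb).2).symm
    · intro b hb b' hb' h
      rw [(hjf b (Finset.mem_coe.1 hb)).2, (hjf b' (Finset.mem_coe.1 hb')).2, h]
  refine ⟨(t.erase c).image jf, fun j hj => ?_, ?_⟩
  · obtain ⟨b, hb, rfl⟩ := Finset.mem_image.1 hj
    exact (hjf b hb).1
  · rw [hprod]
    by_cases hc : c ∈ t
    · right
      exact (Finset.mul_prod_erase t (fun b => b) hc).symm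
    · left
      rw [Finset.erase_eq_of_notMem hc]

/-- PROOF. `x` an infinite independent sequence in `X` (`exists_indep`), `D j` the products over the
blocks of `exists_data` for the ranks of the twists. For `a` outside the fewer than `2 ^ |I|` classes of
`exists_partner` there is `a'` of the same class with `c = a * a'` not a square. `L` is generated by the
square roots of `c` and of `D n, ..., D (n + k - 1)`, `L'` by those of `c` and of all `D j`, `j ≥ n`.
Ranks: `rankK_even` with `comb_sum`. Root numbers: `signK`. -/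
theorem one_exception {K : Type u} [Field K] [NumberField K] {I : Type} [Finite I]
    (A : I → Over (Spec (.of K))) [∀ i, GrpObj (A i)] [∀ i, IsAbVar (A i)] (X : Set K)
    (hX : ¬ FiniteDimensional K (sqrtExt X)) :
    ∃ E : Finset Kˣ, E.card < 2 ^ Nat.card I ∧ ∀ a : Kˣ, (∀ b ∈ E, ¬ IsSquare (a * b)) →
      ∃ (c : K) (L L' : IntermediateField K (AlgebraicClosure K)),
        L ≤ L' ∧ L' ≤ sqrtExt (insert c X) ∧ FiniteDimensional K L ∧
        Module.finrank K L ≤ 2 ^ (3 * Module.finrank ℚ K + 3) ∧ ¬ FiniteDimensional K L' ∧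
        ∀ F : IntermediateField K (AlgebraicClosure K), FiniteDimensional K F → L ≤ F →
          (F ≤ L' ∨ AboveTower L' F) → ∀ i, BothEvenK (A i) (a : K) F := by
  classical
  have hcount := countable_of_numberField K
  have _ : Fintype I := Fintype.ofFinite I
  obtain ⟨x, hx1, hx0, hxi⟩ := exists_indep X hX
  obtain ⟨s, hs1, hs2, α, k, hα⟩ := exists_data x (fun (i : I) ψ => psiRank (A i) ψ)
  obtain ⟨D, hDdef⟩ : ∃ D : ℕ → K, ∀ j, D j = ∏ q ∈ s j, x q := ⟨_, fun _ => rfl⟩
  have hD0 : ∀ j, D j ≠ 0 := fun j => by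
    rw [hDdef]
    exact Finset.prod_ne_zero_iff.2 fun q _ => hx0 q
  have hDi : ∀ T : Finset ℕ, T.Nonempty → ∀ y : K, y ^ 2 ≠ ∏ j ∈ T, D j := by
    intro T hT y hy
    obtain ⟨j, hj⟩ := hT
    obtain ⟨q, hq⟩ := hs1 j
    refine hxi (T.biUnion s) ⟨q, Finset.mem_biUnion.2 ⟨j, hj, hq⟩⟩ y ?_
    rw [hy, Finset.prod_biUnion fun j _ k _ hjk => hs2 j k hjk]
    exact Finset.prod_congr rfl fun j _ => hDdef j
  have hα' : ∀ a i, ∀ T : Finset ℕ, T.Nonempty → (∀ j ∈ T, k a i ≤ j) →
      (Even (psiRank (A i) (chiK (∏ j ∈ T, D j) * chiK a)) ↔ α a i) := by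
    intro a i T hT h
    have h1 := hα a i T hT h
    simp only [← hDdef] at h1
    exact h1
  obtain ⟨E, hE, hpart⟩ := exists_partner (fun (i : I) ψ => psiRank (A i) ψ) D α k hD0 hDi hα'
  refine ⟨E, hE, fun a ha => ?_⟩
  obtain ⟨a', ha', hbet⟩ := hpart a ha
  obtain ⟨c, hc⟩ : ∃ c : K, c = (a : K) * (a' : K) := ⟨_, rfl⟩
  have hc0 : c ≠ 0 := by
    rw [hc]
    exact mul_ne_zero a.ne_zero a'.ne_zero
  have hcK : ∀ y : K, y ^ 2 ≠ c := by
    intro y hy
    apply ha'
    have hy0 : y ≠ 0 := by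
      rintro rfl
      rw [zero_pow two_ne_zero] at hy
      exact hc0 hy.symm
    refine ⟨Units.mk0 y hy0, Units.ext ?_⟩
    rw [Units.val_mul, Units.val_mul, Units.val_mk0, ← sq, hy, hc]
  have hchic : chiK c ≠ 1 := fun h => by
    obtain ⟨y, hy⟩ := isSquare_of_chiK h
    exact hcK y hy
  have hchiD : ∀ j, chiK (D j) ≠ 1 := fun j h => by
    obtain ⟨y, hy⟩ := isSquare_of_chiK h
    refine hDi {j} (Finset.singleton_nonempty j) y ?_
    rw [hy, Finset.prod_singleton]
  have hchiDD : ∀ i j, i ≠ j → chiK (D i) ≠ chiK (D j) := by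
    intro i j hij h
    have h2 : chiK (D i * D j) = 1 := by
      rw [chiK_mul (hD0 _) (hD0 _), h, Chi_self_mul]
    obtain ⟨y, hy⟩ := isSquare_of_chiK h2
    refine hDi {i, j} ⟨i, Finset.mem_insert_self _ _⟩ y ?_
    rw [hy, Finset.prod_pair hij]
  -- the index
  obtain ⟨n, hn⟩ : ∃ n, ∀ i, k (a : K) i ≤ n ∧ k (a' : K) i ≤ n := by
    refine ⟨∑ i, (k (a : K) i + k (a' : K) i), fun i => ?_⟩
    have h1 := Finset.single_le_sum (f := fun i => k (a : K) i + k (a' : K) i)
      (fun _ _ => Nat.zero_le _) (Finset.mem_univ i)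
    omega
  obtain ⟨m, hm⟩ : ∃ m, m = 3 * Module.finrank ℚ K + 2 := ⟨_, rfl⟩
  obtain ⟨S, hS⟩ : ∃ S : Finset K, S = insert c ((Finset.range m).image fun j => D (n + j)) :=
    ⟨_, rfl⟩
  obtain ⟨Y, hY⟩ : ∃ Y : Set K, Y = insert c {z | ∃ j, n ≤ j ∧ z = D j} := ⟨_, rfl⟩
  have hSY : (S : Set K) ⊆ Y := by
    intro z hz
    rw [hS, Finset.mem_coe, Finset.mem_insert, Finset.mem_image] at hz
    rw [hY]
    rcases hz with h | ⟨j, -, h⟩
    · exact Or.inl h
    · exact Or.inr ⟨n + j, Nat.le_add_right n j, h.symm⟩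
  have hDY : ∀ j, n ≤ j → D j ∈ Y := by
    intro j hj
    rw [hY]
    exact Or.inr ⟨j, hj, rfl⟩
  have hDS : ∀ j, j < m → D (n + j) ∈ (S : Set K) := by
    intro j hj
    rw [hS, Finset.mem_coe]
    exact Finset.mem_insert_of_mem (Finset.mem_image_of_mem _ (Finset.mem_range.2 hj))
  have hcS : c ∈ (S : Set K) := by
    rw [hS, Finset.mem_coe]
    exact Finset.mem_insert_self _ _
  have hY0 : ∀ b ∈ Y, b ≠ 0 := by
    intro b hb
    rw [hY] at hb
    rcases hb with h | ⟨j, -, h⟩
    · rw [h]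
      exact hc0
    · rw [h]
      exact hD0 j
  refine ⟨c, sqrtExt (S : Set K), sqrtExt Y, sqrtExt_mono hSY, ?_,
    sqrtExt_finite _ S.finite_toSet, ?_, infinite_of_indep D hD0 hDi n Y hDY, ?_⟩
  · -- the tower lies in the given field
    conv_lhs => unfold sqrtExt
    rw [IntermediateField.adjoin_le_iff]
    rintro z ⟨b, hb, hz⟩
    rw [hY] at hb
    rcases hb with h | ⟨j, -, h⟩
    · exact mem_sqrtExt (Set.mem_insert_iff.2 (Or.inl h)) hz
    · have h1 : (∏ q ∈ s j, rtK K (x q)) ^ 2 = z ^ 2 := by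
        rw [hz, h, hDdef, ← Finset.prod_pow, map_prod]
        exact Finset.prod_congr rfl fun q _ => rtK_sq K _
      have h2 : ∏ q ∈ s j, rtK K (x q) ∈ sqrtExt (insert c X) :=
        prod_mem fun q _ => mem_sqrtExt (Set.mem_insert_of_mem c (hx1 q)) (rtK_sq K _)
      rcases sq_eq_sq_iff_eq_or_eq_neg.1 h1 with h3 | h3
      · rwa [h3] at h2
      · rw [h3] at h2
        exact neg_mem_iff.1 h2
  · -- the degree
    refine (sqrtExt_finrank_le S).trans (Nat.pow_le_pow_right (by norm_num) ?_)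
    rw [hS]
    refine (Finset.card_insert_le _ _).trans ?_
    have h1 := Finset.card_image_le (s := Finset.range m) (f := fun j => D (n + j))
    rw [Finset.card_range] at h1
    omega
  · -- the fields
    intro F hfd hLF hF i B _ _ hAB
    have hmemF : ∀ b ∈ (S : Set K), rtK K b ∈ F := fun b hb =>
      hLF (mem_sqrtExt hb (rtK_sq K b))
    have hFT : AboveTower (sqrtExt Y) F := by
      rcases hF with hF | hF
      · exact tow_above Y F hF c (rtK K c) (hmemF c hcS) (rtK_sq K c) hcK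
      · exact hF
    have hgal : IsGalois K F := hFT.2.1
    refine ⟨fun W hW g => ?_, ?_⟩
    · refine KT.signK F (k := m) hm.ge (fun j : Fin m => D (n + j)) ?_ (fun j =>
        ⟨rtK K (D (n + j)), hmemF _ (hDS j j.2), rtK_sq K _⟩) W hW g
      intro J hJ y hy
      refine hDi (J.image fun j : Fin m => n + (j : ℕ)) (hJ.image _) y ?_
      rw [hy, Finset.prod_image]
      intro j _ j' _ h
      apply Fin.ext
      have h' : n + (j : ℕ) = n + (j' : ℕ) := h
      omega
    · -- the second square root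
      obtain ⟨b, hbS, hb1, hbc⟩ : ∃ b ∈ (S : Set K), chiK b ≠ 1 ∧ chiK c ≠ chiK b := by
        by_cases h : chiK c = chiK (D (n + 0))
        · refine ⟨D (n + 1), hDS 1 (by omega), hchiD _, ?_⟩
          rw [h]
          exact hchiDD _ _ (by omega)
        · exact ⟨D (n + 0), hDS 0 (by omega), hchiD _, h⟩
      refine rankK_even (A i) B (a : K) hAB Y hY0 F hFT c (rtK K c) (hmemF c hcS) (rtK_sq K c)
        hchic b (rtK K b) (hmemF b hbS) (rtK_sq K b) hb1 hbc
        (psiRank (A i) (chiK (a : K)) + psiRank (A i) (chiK (a' : K))) ?_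
      intro t ht
      rw [hY] at ht
      obtain ⟨T, hT, hprod⟩ := prod_split D n c t ht
      have hsum := comb_sum (fun (i : I) ψ => psiRank (A i) ψ) D α k hα' (a : K) (a' : K) i
        (hbet i) T (fun j hj => (hn i).1.trans (hT j hj)) (fun j hj => (hn i).2.trans (hT j hj))
      have hD1 : ∏ j ∈ T, D j ≠ 0 := Finset.prod_ne_zero_iff.2 fun j _ => hD0 j
      have hcc : chiK c = chiK (a : K) * chiK (a' : K) := by
        rw [hc, chiK_mul a.ne_zero a'.ne_zero]
      have hca : chiK c * chiK (a : K) = chiK (a' : K) := by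
        rw [hcc, mul_comm (chiK (a : K)), mul_assoc, Chi_self_mul, mul_one]
      rcases hprod with h | h
      · rw [h, mul_assoc _ (chiK c), hca]
        exact hsum
      · rw [h, chiK_mul hc0 hD1, mul_comm (chiK c) (chiK (∏ j ∈ T, D j)),
          mul_assoc _ (chiK c) (chiK c), Chi_self_mul, mul_one, mul_assoc _ (chiK c), hca,
          add_comm]
        exact hsum

end Pool.Agent.H.MP_ac3185_nt.OE
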