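import Mathlib

set_option autoImplicit false

open NumberField IsDedekindDomain

namespace Pool.Agent.H.MP_ac3185_nt.OE

universe u

/-- The ideal `4 v` has norm at most `2 ^ (3 n)` if `v` divides `2`. -/
theorem card_four_mul {K : Type u} [Field K] [NumberField K] (v : HeightOneSpectrum (𝓞 K))
    (h2 : (2 : 𝓞 K) ∈ v.asIdeal) :
    Finite (𝓞 K ⧸ (Ideal.span {(4 : 𝓞 K)} * v.asIdeal)) ∧
    Nat.card (𝓞 K ⧸ (Ideal.span {(4 : 𝓞 K)} * v.asIdeal)) ≤ 2 ^ (3 * Module.finrank ℚ K) := by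
  have h4 : Ideal.absNorm (Ideal.span {(4 : 𝓞 K)}) = 4 ^ Module.finrank ℚ K := by
    rw [Ideal.absNorm_span_singleton]
    have : (4 : 𝓞 K) = algebraMap ℤ (𝓞 K) 4 := by simp
    rw [this, Algebra.norm_algebraMap]
    simp [Int.natAbs_pow, RingOfIntegers.rank]
  have h2' : Ideal.absNorm (Ideal.span {(2 : 𝓞 K)}) = 2 ^ Module.finrank ℚ K := by
    rw [Ideal.absNorm_span_singleton]
    have : (2 : 𝓞 K) = algebraMap ℤ (𝓞 K) 2 := by simp
    rw [this, Algebra.norm_algebraMap]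
    simp [Int.natAbs_pow, RingOfIntegers.rank]
  have hv : Ideal.absNorm v.asIdeal ≤ 2 ^ Module.finrank ℚ K := by
    rw [← h2']
    apply Nat.le_of_dvd
    · rw [h2']
      positivity
    · apply Ideal.absNorm_dvd_absNorm_of_le
      rw [Ideal.span_singleton_le_iff_mem]
      exact h2
  have hN : Ideal.absNorm (Ideal.span {(4 : 𝓞 K)} * v.asIdeal) ≤ 2 ^ (3 * Module.finrank ℚ K) := by
    rw [map_mul, h4]
    calc 4 ^ Module.finrank ℚ K * Ideal.absNorm v.asIdeal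
        ≤ 4 ^ Module.finrank ℚ K * 2 ^ Module.finrank ℚ K := Nat.mul_le_mul_left _ hv
      _ = 2 ^ (3 * Module.finrank ℚ K) := by
        rw [← mul_pow, pow_mul]
        norm_num
  have hne : Ideal.span {(4 : 𝓞 K)} * v.asIdeal ≠ ⊥ := by
    apply mul_ne_zero
    · rw [Ne, Ideal.zero_eq_bot, Ideal.span_singleton_eq_bot]
      norm_num
    · exact v.ne_bot
  refine ⟨?_, ?_⟩
  · exact Ideal.finiteQuotientOfFreeOfNeBot _ hne
  · rwa [Ideal.absNorm_apply, Submodule.cardQuot_apply] at hN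

end Pool.Agent.H.MP_ac3185_nt.OE
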