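import Pool.Agent.H.MP_ac3185_nt.U.Rank

/-! The quadratic characters of the absolute Galois group of `K`, for elements of `K`. -/

set_option autoImplicit false

open CategoryTheory AlgebraicGeometry NumberField IsDedekindDomain
open scoped MonObj

namespace Pool.Agent.H.MP_ac3185_nt.OE

universe u

section field

variable (K : Type u) [Field K]

/-- A square root of `a` in the algebraic closure. -/
noncomputable def rtK (a : K) : AlgebraicClosure K :=
  Classical.choose (IsAlgClosed.exists_pow_nat_eq (algebraMap K (AlgebraicClosure K) a)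
    (n := 2) two_pos)

theorem rtK_sq (a : K) : rtK K a ^ 2 = algebraMap K (AlgebraicClosure K) a :=
  Classical.choose_spec (IsAlgClosed.exists_pow_nat_eq (algebraMap K (AlgebraicClosure K) a)
    (n := 2) two_pos)

variable {K}

theorem rtK_ne_zero {a : K} (ha : a ≠ 0) : rtK K a ≠ 0 := by
  intro h
  have h1 := rtK_sq K a
  rw [h, zero_pow two_ne_zero] at h1
  exact ha ((map_eq_zero _).1 h1.symm)

theorem sqK_map_eq (a : K) (σ : AlgebraicClosure K ≃ₐ[K] AlgebraicClosure K)
    (s : AlgebraicClosure K) (hs : s ^ 2 = algebraMap K (AlgebraicClosure K) a) :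
    σ s = s ∨ σ s = -s := by
  rw [← sq_eq_sq_iff_eq_or_eq_neg, ← map_pow, hs, AlgEquiv.commutes]

variable [CharZero K]

open Classical in
/-- The character of `Gal(Kbar/K)` of the extension `K(√a)`. -/
noncomputable def chiK (a : K) : (AlgebraicClosure K ≃ₐ[K] AlgebraicClosure K) →* ℤˣ where
  toFun σ := if σ (rtK K a) = rtK K a then 1 else -1
  map_one' := if_pos rfl
  map_mul' σ τ := by
    have hτ := sqK_map_eq a τ (rtK K a) (rtK_sq K a)
    have hσ := sqK_map_eq a σ (rtK K a) (rtK_sq K a)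
    rw [AlgEquiv.mul_apply]
    by_cases h1 : τ (rtK K a) = rtK K a
    · rw [h1, if_pos rfl, mul_one]
    · have h1' : τ (rtK K a) = -rtK K a := hτ.resolve_left h1
      have h0 : -rtK K a ≠ rtK K a := fun h => h1 (h1'.trans h)
      rw [if_neg h1, h1', map_neg]
      by_cases h2 : σ (rtK K a) = rtK K a
      · rw [h2, if_neg h0, if_pos rfl, one_mul]
      · rw [hσ.resolve_left h2, neg_neg, if_pos rfl, if_neg h0]; rfl

theorem chiK_eq_one_iff (a : K) (σ : AlgebraicClosure K ≃ₐ[K] AlgebraicClosure K)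
    (s : AlgebraicClosure K) (hs : s ^ 2 = algebraMap K (AlgebraicClosure K) a) :
    chiK a σ = 1 ↔ σ s = s := by
  classical
  have h1 : chiK a σ = 1 ↔ σ (rtK K a) = rtK K a := by
    change (if σ (rtK K a) = rtK K a then (1 : ℤˣ) else -1) = 1 ↔ _
    by_cases h : σ (rtK K a) = rtK K a
    · simp [h]
    · rw [if_neg h]
      exact ⟨fun h' => absurd h' (by decide), fun h' => absurd h' h⟩
  rw [h1]
  have h2 : s = rtK K a ∨ s = -rtK K a := by
    rw [← sq_eq_sq_iff_eq_or_eq_neg, hs, rtK_sq]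
  rcases h2 with rfl | rfl
  · exact Iff.rfl
  · rw [map_neg, neg_inj]

theorem chiK_smul (a : K) (σ : AlgebraicClosure K ≃ₐ[K] AlgebraicClosure K)
    (s : AlgebraicClosure K) (hs : s ^ 2 = algebraMap K (AlgebraicClosure K) a) :
    σ s = ((chiK a σ : ℤ) : AlgebraicClosure K) * s := by
  rcases Int.units_eq_one_or (chiK a σ) with h | h
  · rw [h, (chiK_eq_one_iff a σ s hs).1 h]; simp
  · have h1 : σ s ≠ s := fun h' => by
      rw [(chiK_eq_one_iff a σ s hs).2 h'] at h
      exact absurd h (by decide)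
    rw [h, (sqK_map_eq a σ s hs).resolve_left h1]; simp

/-- The character of a square is trivial. -/
theorem chiK_of_sq {a y : K} (h : a = y ^ 2) : chiK a = 1 := by
  apply MonoidHom.ext
  intro σ
  rw [MonoidHom.one_apply, chiK_eq_one_iff a σ (algebraMap K (AlgebraicClosure K) y)
    (by rw [h, map_pow]), AlgEquiv.commutes]

theorem chiK_mul {a b : K} (ha : a ≠ 0) (hb : b ≠ 0) : chiK (a * b) = chiK a * chiK b := by
  apply MonoidHom.ext
  intro σ
  have h0 : rtK K a * rtK K b ≠ 0 := mul_ne_zero (rtK_ne_zero ha) (rtK_ne_zero hb)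
  have h1 := chiK_smul (a * b) σ (rtK K a * rtK K b) (by
    rw [mul_pow, rtK_sq, rtK_sq, map_mul])
  rw [map_mul, chiK_smul a σ _ (rtK_sq K a), chiK_smul b σ _ (rtK_sq K b)] at h1
  have h2 : (((chiK a σ : ℤ) * (chiK b σ : ℤ) : ℤ) : AlgebraicClosure K) *
      (rtK K a * rtK K b) =
      ((chiK (a * b) σ : ℤ) : AlgebraicClosure K) * (rtK K a * rtK K b) := by
    rw [← h1]; push_cast; ring
  have h3 := mul_right_cancel₀ h0 h2
  have h4 : (chiK a σ : ℤ) * (chiK b σ : ℤ) = (chiK (a * b) σ : ℤ) := by exact_mod_cast h3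
  rw [MonoidHom.mul_apply]
  apply Units.ext
  rw [Units.val_mul, h4]

theorem chiK_one : chiK (1 : K) = 1 := chiK_of_sq (y := 1) (by rw [one_pow])

theorem chiK_prod {J : Type*} (T : Finset J) (d : J → K) (hd : ∀ i ∈ T, d i ≠ 0) :
    chiK (∏ i ∈ T, d i) = ∏ i ∈ T, chiK (d i) := by
  classical
  induction T using Finset.induction_on with
  | empty => rw [Finset.prod_empty, Finset.prod_empty, chiK_one]
  | insert a T ha ih =>
    rw [Finset.prod_insert ha, Finset.prod_insert ha, chiK_mul (hd a (Finset.mem_insert_self a T))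
      (Finset.prod_ne_zero_iff.2 fun i hi => hd i (Finset.mem_insert_of_mem hi)),
      ih fun i hi => hd i (Finset.mem_insert_of_mem hi)]

/-- An element of `K` is a square if its character is trivial. -/
theorem isSquare_of_chiK {a : K} (h : chiK a = 1) : ∃ y : K, y ^ 2 = a := by
  have h4 : rtK K a ∈ (⊥ : IntermediateField K (AlgebraicClosure K)) := by
    refine rank_mem_of_fixed ⊥ _ fun σ _ => ?_
    exact (chiK_eq_one_iff a σ _ (rtK_sq K a)).1 (by rw [h, MonoidHom.one_apply])
  obtain ⟨y, hy⟩ := IntermediateField.mem_bot.1 h4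
  refine ⟨y, (algebraMap K (AlgebraicClosure K)).injective ?_⟩
  rw [map_pow, hy, rtK_sq]

/-- The subgroup of `A(Kbar)` on which `Gal(Kbar/K)` acts through the character `ψ`. -/
noncomputable def psiPts (A : Over (Spec (.of K))) [GrpObj A] [IsAbVar A]
    (ψ : (AlgebraicClosure K ≃ₐ[K] AlgebraicClosure K) →* ℤˣ) :
    AddSubgroup (Pts A (AlgebraicClosure K)) where
  carrier := {x | ∀ σ, galHom A σ x = (ψ σ : ℤ) • x}
  zero_mem' := fun σ => by rw [map_zero, smul_zero]
  add_mem' := fun {x y} hx hy σ => by rw [map_add, hx σ, hy σ, smul_add]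
  neg_mem' := fun {x} hx σ => by rw [map_neg, hx σ, smul_neg]

/-- The rank of `psiPts A ψ`, which is the rank of the twist of `A` by `ψ`. -/
noncomputable def psiRank (A : Over (Spec (.of K))) [GrpObj A] [IsAbVar A]
    (ψ : (AlgebraicClosure K ≃ₐ[K] AlgebraicClosure K) →* ℤˣ) : ℕ :=
  Module.finrank ℤ (psiPts A ψ)

end field

end Pool.Agent.H.MP_ac3185_nt.OE
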