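import Pool.Agent.H.MP_ac3185_nt.O42.Seq

/-! The parities of the twists: the classes of the elements of `K`, and the partner. -/

set_option autoImplicit false

open NumberField

namespace Pool.Agent.H.MP_ac3185_nt.OE

universe u

variable {K : Type u} [Field K]

theorem countable_of_numberField (K : Type u) [Field K] [NumberField K] : Countable K := by
  have h := (Module.finBasis ℚ K).equivFun.toEquiv
  exact h.injective.countable

variable [CharZero K]

/-- The constant parities. -/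
theorem exists_data [Countable K] {I : Type} [Finite I] (x : ℕ → K)
    (R : I → ((AlgebraicClosure K ≃ₐ[K] AlgebraicClosure K) →* ℤˣ) → ℕ) :
    ∃ s : ℕ → Finset ℕ, (∀ j, (s j).Nonempty) ∧ (∀ j k, j ≠ k → Disjoint (s j) (s k)) ∧
      ∃ (α : K → I → Prop) (k : K → I → ℕ), ∀ a i, ∀ T : Finset ℕ, T.Nonempty →
        (∀ j ∈ T, k a i ≤ j) →
          (Even (R i (chiK (∏ j ∈ T, ∏ q ∈ s j, x q) * chiK a)) ↔ α a i) := by
  classical
  have _ : Encodable I := Encodable.ofCountable I
  have _ : Encodable K := Encodable.ofCountable K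
  obtain ⟨c, hc⟩ : ∃ c : ℕ → K → Prop, ∀ k z, c k z ↔
      ∀ p : K × I, Encodable.encode p = k → Even (R p.2 (chiK z * chiK p.1)) :=
    ⟨fun k z => ∀ p : K × I, Encodable.encode p = k → Even (R p.2 (chiK z * chiK p.1)),
      fun _ _ => Iff.rfl⟩
  have hc' : ∀ (a : K) (i : I) (z : K),
      c (Encodable.encode (a, i)) z ↔ Even (R i (chiK z * chiK a)) := by
    intro a i z
    rw [hc]
    constructor
    · intro h
      exact h (a, i) rfl
    · intro h p hp
      rw [Encodable.encode_injective hp]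
      exact h
  obtain ⟨s, h1, h2, h3⟩ := exists_blocks x c
  refine ⟨s, h1, h2, fun a i => c (Encodable.encode (a, i))
    (∏ j ∈ {Encodable.encode (a, i)}, ∏ q ∈ s j, x q),
      fun a i => Encodable.encode (a, i), fun a i T hT hk => ?_⟩
  rw [← hc']
  refine h3 _ T {Encodable.encode (a, i)} hT (Finset.singleton_nonempty _) hk fun j hj => ?_
  rw [Finset.mem_singleton] at hj
  exact hj.ge

/-- The parity of the rank of the twist by `a` is the constant one. -/
def Bet {I : Type} (R : I → ((AlgebraicClosure K ≃ₐ[K] AlgebraicClosure K) →* ℤˣ) → ℕ)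
    (α : K → I → Prop) (a : K) (i : I) : Prop := Even (R i (chiK a)) ↔ α a i

variable {I : Type} (R : I → ((AlgebraicClosure K ≃ₐ[K] AlgebraicClosure K) →* ℤˣ) → ℕ)
  (D : ℕ → K) (α : K → I → Prop) (k : K → I → ℕ)

theorem comb_sum (hα : ∀ a i, ∀ T : Finset ℕ, T.Nonempty → (∀ j ∈ T, k a i ≤ j) →
      (Even (R i (chiK (∏ j ∈ T, D j) * chiK a)) ↔ α a i)) (a a' : K) (i : I)
    (hb : Bet R α a i ↔ Bet R α a' i) (T : Finset ℕ) (h : ∀ j ∈ T, k a i ≤ j)
    (h' : ∀ j ∈ T, k a' i ≤ j) :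
    R i (chiK (∏ j ∈ T, D j) * chiK a) + R i (chiK (∏ j ∈ T, D j) * chiK a') ≡
      R i (chiK a) + R i (chiK a') [MOD 2] := by
  rcases T.eq_empty_or_nonempty with h4 | h4
  · rw [h4, Finset.prod_empty, chiK_one, one_mul, one_mul]
  · have h5 := hα a i T h4 h
    have h6 := hα a' i T h4 h'
    unfold Bet at hb
    rw [← h5, ← h6] at hb
    show _ % 2 = _ % 2
    simp only [Nat.even_iff] at hb
    omega

/-- The twists by `a * D n` with `n` large. -/
theorem comb_bet (hD0 : ∀ j, D j ≠ 0) (hα : ∀ a i, ∀ T : Finset ℕ, T.Nonempty →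
      (∀ j ∈ T, k a i ≤ j) → (Even (R i (chiK (∏ j ∈ T, D j) * chiK a)) ↔ α a i)) {a : K}
    (ha : a ≠ 0) (i : I) (n : ℕ) (hn : k a i ≤ n) : Bet R α (a * D n) i := by
  unfold Bet
  have h1 := hα a i {n} (Finset.singleton_nonempty n) (fun j hj => by
    rw [Finset.mem_singleton] at hj
    rw [hj]
    exact hn)
  rw [Finset.prod_singleton] at h1
  obtain ⟨m, hm⟩ : ∃ m, m = max (k (a * D n) i) (n + 1) := ⟨_, rfl⟩
  have hm1 : k (a * D n) i ≤ m := by rw [hm]; exact le_max_left _ _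
  have hm2 : n < m := by rw [hm]; exact Nat.lt_of_lt_of_le (Nat.lt_succ_self n) (Nat.le_max_right _ _)
  have h2 := hα (a * D n) i {m} (Finset.singleton_nonempty m) (fun j hj => by
    rw [Finset.mem_singleton] at hj
    rw [hj]
    exact hm1)
  have h3 := hα a i {n, m} ⟨n, Finset.mem_insert_self _ _⟩ (fun j hj => by
    rw [Finset.mem_insert, Finset.mem_singleton] at hj
    rcases hj with hj | hj
    · rw [hj]
      exact hn
    · rw [hj]
      exact hn.trans hm2.le)
  rw [Finset.prod_singleton] at h2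
  rw [Finset.prod_pair hm2.ne, chiK_mul (hD0 n) (hD0 m)] at h3
  rw [chiK_mul ha (hD0 n)] at h2 ⊢
  rw [← h2, mul_comm (chiK a) (chiK (D n)), h1, ← mul_assoc, mul_comm (chiK (D m)) (chiK (D n)), h3]

/-- All elements of `K` outside fewer than `2 ^ |I|` classes have a partner. -/
theorem exists_partner [Finite I] (hD0 : ∀ j, D j ≠ 0)
    (hD : ∀ T : Finset ℕ, T.Nonempty → ∀ y : K, y ^ 2 ≠ ∏ j ∈ T, D j)
    (hα : ∀ a i, ∀ T : Finset ℕ, T.Nonempty → (∀ j ∈ T, k a i ≤ j) →
      (Even (R i (chiK (∏ j ∈ T, D j) * chiK a)) ↔ α a i)) :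
    ∃ E : Finset Kˣ, E.card < 2 ^ Nat.card I ∧ ∀ a : Kˣ, (∀ b ∈ E, ¬ IsSquare (a * b)) →
      ∃ a' : Kˣ, ¬ IsSquare (a * a') ∧ ∀ i, Bet R α (a : K) i ↔ Bet R α (a' : K) i := by
  classical
  have _ : Fintype I := Fintype.ofFinite I
  have hex : ∀ v : I → Prop, ∃ b : Kˣ, (∃ a : Kˣ, (∀ a' : Kˣ, (∀ i, Bet R α (a : K) i ↔
      Bet R α (a' : K) i) → IsSquare (a * a')) ∧ ∀ i, Bet R α (a : K) i ↔ v i) →
      (∀ a' : Kˣ, (∀ i, Bet R α (b : K) i ↔ Bet R α (a' : K) i) → IsSquare (b * a')) ∧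
        ∀ i, Bet R α (b : K) i ↔ v i := by
    intro v
    by_cases h : ∃ a : Kˣ, (∀ a' : Kˣ, (∀ i, Bet R α (a : K) i ↔
      Bet R α (a' : K) i) → IsSquare (a * a')) ∧ ∀ i, Bet R α (a : K) i ↔ v i
    · obtain ⟨a, ha⟩ := h
      exact ⟨a, fun _ => ha⟩
    · exact ⟨1, fun h' => absurd h' h⟩
  choose rep hrep using hex
  refine ⟨(Finset.univ.erase (fun _ => True)).image rep, ?_, ?_⟩
  · refine lt_of_le_of_lt Finset.card_image_le ?_
    rw [Finset.card_erase_of_mem (Finset.mem_univ _), Finset.card_univ, Fintype.card_fun,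
      Fintype.card_prop, ← Nat.card_eq_fintype_card]
    have : 0 < 2 ^ Nat.card I := pow_pos two_pos _
    omega
  · intro a ha
    by_contra hcon
    push Not at hcon
    have hbad : ∀ a' : Kˣ, (∀ i, Bet R α (a : K) i ↔ Bet R α (a' : K) i) → IsSquare (a * a') := by
      intro a' h
      by_contra hns
      obtain ⟨i, hi⟩ := hcon a' hns
      have := h i
      tauto
    by_cases htop : ∀ i, Bet R α (a : K) i
    · -- the partner `a * D n`
      obtain ⟨n, hn⟩ : ∃ n, ∀ i, k (a : K) i ≤ n := by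
        refine ⟨∑ i, k (a : K) i, fun i => ?_⟩
        exact Finset.single_le_sum (f := fun i => k (a : K) i) (fun _ _ => Nat.zero_le _)
          (Finset.mem_univ i)
      obtain ⟨u, hu⟩ : ∃ u : Kˣ, (u : K) = a * D n :=
        ⟨Units.mk0 ((a : K) * D n) (mul_ne_zero a.ne_zero (hD0 n)), rfl⟩
      obtain ⟨z, hz⟩ := hbad u fun i => by
        rw [hu]
        exact ⟨fun _ => comb_bet R D α k hD0 hα a.ne_zero i n (hn i), fun _ => htop i⟩
      have h1 := congrArg (fun t : Kˣ => (t : K)) hz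
      simp only [Units.val_mul, hu] at h1
      refine hD {n} (Finset.singleton_nonempty n) ((z : K) / (a : K)) ?_
      rw [Finset.prod_singleton, div_pow, div_eq_iff (pow_ne_zero 2 a.ne_zero), sq, ← h1]
      ring
    · obtain ⟨h1, h2⟩ := hrep (fun i => Bet R α (a : K) i) ⟨a, hbad, fun _ => Iff.rfl⟩
      refine ha (rep fun i => Bet R α (a : K) i) ?_ ?_
      · refine Finset.mem_image_of_mem rep ?_
        rw [Finset.mem_erase]
        refine ⟨fun h => htop fun i => ?_, Finset.mem_univ _⟩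
        rw [congrFun h i]
        trivial
      · rw [mul_comm]
        exact h1 a h2

end Pool.Agent.H.MP_ac3185_nt.OE
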