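import Pool.Agent.H.MP_ac3185_nt.O42.Tow
import Pool.Agent.H.MP_ac3185_nt.U.Hind

/-! Sequences of elements of `K` which are independent modulo squares, and the blocks given by
Hindman's theorem. -/

set_option autoImplicit false

namespace Pool.Agent.H.MP_ac3185_nt.OE

universe u

variable {K : Type u} [Field K]

theorem sqrtExt_finite (X : Set K) (hX : X.Finite) : FiniteDimensional K (sqrtExt X) := by
  have hfin : {x : AlgebraicClosure K | ∃ a ∈ X, x ^ 2 = algebraMap K (AlgebraicClosure K) a}.Finite := by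
    have h1 : {x : AlgebraicClosure K | ∃ a ∈ X, x ^ 2 = algebraMap K (AlgebraicClosure K) a} ⊆
        ⋃ a ∈ X, {rtK K a, -rtK K a} := by
      rintro x ⟨a, ha, hx⟩
      rw [Set.mem_iUnion₂]
      refine ⟨a, ha, ?_⟩
      rw [Set.mem_insert_iff, Set.mem_singleton_iff, ← sq_eq_sq_iff_eq_or_eq_neg, hx, rtK_sq]
    refine (Set.Finite.biUnion hX fun a _ => ?_).subset h1
    exact (Set.finite_singleton _).insert _
  have := hfin.to_subtype
  unfold sqrtExt
  exact IntermediateField.finiteDimensional_adjoin fun x _ => Algebra.IsIntegral.isIntegral x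

/-- An infinite independent sequence in `X`. -/
theorem exists_indep (X : Set K) (hX : ¬ FiniteDimensional K (sqrtExt X)) :
    ∃ x : ℕ → K, (∀ j, x j ∈ X) ∧ (∀ j, x j ≠ 0) ∧
      ∀ T : Finset ℕ, T.Nonempty → ∀ y : K, y ^ 2 ≠ ∏ j ∈ T, x j := by
  classical
  have step : ∀ s : Finset K, ∃ a ∈ X, ∀ r : AlgebraicClosure K,
      r ^ 2 = algebraMap K (AlgebraicClosure K) a → r ∉ sqrtExt (s : Set K) := by
    intro s
    by_contra hcon
    push Not at hcon
    apply hX
    have hle : sqrtExt X ≤ sqrtExt (s : Set K) := by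
      conv_lhs => unfold sqrtExt
      rw [IntermediateField.adjoin_le_iff]
      rintro x ⟨a, ha, hx⟩
      obtain ⟨r, hr, hrs⟩ := hcon a ha
      rcases sq_eq_sq_iff_eq_or_eq_neg.1 (hx.trans hr.symm) with h | h
      · rw [h]
        exact hrs
      · rw [h]
        exact neg_mem hrs
    have hfd := sqrtExt_finite (s : Set K) s.finite_toSet
    exact FiniteDimensional.of_injective (IntermediateField.inclusion hle).toLinearMap
      (IntermediateField.inclusion hle).injective
  choose el hel1 hel2 using step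
  obtain ⟨F, hF0, hF1⟩ : ∃ F : ℕ → Finset K, F 0 = ∅ ∧ ∀ n, F (n + 1) = insert (el (F n)) (F n) :=
    ⟨fun n => Nat.rec ∅ (fun _ s => insert (el s) s) n, rfl, fun _ => rfl⟩
  have hmono : ∀ m n, m < n → el (F m) ∈ F n := by
    intro m n hmn
    induction n, hmn using Nat.le_induction with
    | base => rw [hF1]; exact Finset.mem_insert_self _ _
    | succ n _ ih => rw [hF1]; exact Finset.mem_insert_of_mem ih
  have h0 : ∀ j, el (F j) ≠ 0 := by
    intro j h
    refine hel2 (F j) 0 ?_ (zero_mem _)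
    rw [h, map_zero, zero_pow two_ne_zero]
  refine ⟨fun n => el (F n), fun j => hel1 _, h0, fun T hT y hy => ?_⟩
  have hm := T.max'_mem hT
  obtain ⟨m, hmdef⟩ : ∃ m, m = T.max' hT := ⟨_, rfl⟩
  rw [← hmdef] at hm
  have hp0 : ∏ j ∈ T.erase m, rtK K (el (F j)) ≠ 0 :=
    Finset.prod_ne_zero_iff.2 fun j _ => rtK_ne_zero (h0 j)
  refine hel2 (F m) (algebraMap K (AlgebraicClosure K) y / ∏ j ∈ T.erase m, rtK K (el (F j))) ?_ ?_
  · rw [div_pow, ← map_pow, hy, ← Finset.mul_prod_erase T _ hm, map_mul, ← Finset.prod_pow,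
      map_prod]
    simp only [rtK_sq]
    rw [mul_div_assoc, div_self, mul_one]
    rw [Finset.prod_ne_zero_iff]
    intro j _ h
    exact h0 j ((map_eq_zero _).1 h)
  · refine div_mem (algebraMap_mem _ _) (prod_mem fun j hj => ?_)
    rw [Finset.mem_erase] at hj
    have hjm : j < m := by
      have := T.le_max' j hj.2
      rw [← hmdef] at this
      omega
    exact mem_sqrtExt (Finset.mem_coe.2 (hmono j m hjm)) (rtK_sq K _)

/-- Blocks of a sequence, such that for every `i` all finite products over blocks with indices `≥ i`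
have the same colour for `c i`. -/
theorem exists_blocks (x : ℕ → K) (c : ℕ → K → Prop) :
    ∃ s : ℕ → Finset ℕ, (∀ j, (s j).Nonempty) ∧ (∀ j k, j ≠ k → Disjoint (s j) (s k)) ∧
      ∀ i, ∀ T T' : Finset ℕ, T.Nonempty → T'.Nonempty → (∀ j ∈ T, i ≤ j) → (∀ j ∈ T', i ≤ j) →
        (c i (∏ j ∈ T, ∏ q ∈ s j, x q) ↔ c i (∏ j ∈ T', ∏ q ∈ s j, x q)) := by
  classical
  obtain ⟨d, h1, h2, h3, -, -, -, h7⟩ := U.exists_universal
    (fun k m => c k (∏ q ∈ m.primeFactors, x q)) (fun _ => 1) (fun _ => one_ne_zero)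
  have hd0 : ∀ j, d j ≠ 0 := fun j => by
    have := h1 j
    omega
  have hdisj : ∀ j k, j ≠ k → Disjoint (d j).primeFactors (d k).primeFactors :=
    fun j k hjk => (h3 j k hjk).disjoint_primeFactors
  have hpf : ∀ T : Finset ℕ, (∏ j ∈ T, d j).primeFactors = T.biUnion fun j => (d j).primeFactors := by
    intro T
    induction T using Finset.induction_on with
    | empty => rw [Finset.prod_empty, Nat.primeFactors_one, Finset.biUnion_empty]
    | insert a T ha ih =>
      rw [Finset.prod_insert ha, Nat.primeFactors_mul (hd0 a)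
        (Finset.prod_ne_zero_iff.2 fun j _ => hd0 j), ih, Finset.biUnion_insert]
  have hprod : ∀ T : Finset ℕ, ∏ q ∈ (∏ j ∈ T, d j).primeFactors, x q =
      ∏ j ∈ T, ∏ q ∈ (d j).primeFactors, x q := by
    intro T
    rw [hpf, Finset.prod_biUnion fun j _ k _ hjk => hdisj j k hjk]
  refine ⟨fun j => (d j).primeFactors, fun j => Nat.nonempty_primeFactors.2 (h1 j), hdisj, ?_⟩
  intro i T T' hT hT' h h'
  have h8 := h7 i T T' hT hT' h h'
  rwa [hprod, hprod] at h8

end Pool.Agent.H.MP_ac3185_nt.OE
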